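import Pool.Agent.Q41.AS.NoInt
import Pool.Agent.H812R3.CantorChar

/-! The achievement set. -/

set_option autoImplicit false

open Set Filter Topology

namespace Q41.AS

/-- the sequence of the problem: `x n = 2^{-n}` for odd `n` and `x n = 1 / (2^n + 1)` for even `n` -/
noncomputable def x (n : ℕ) : ℝ := if Odd n then 1 / 2 ^ n else 1 / (2 ^ n + 1)

/-- the achievement set of a sequence which is indexed by the positive integers -/
def E (x : ℕ → ℝ) : Set ℝ := {s | ∃ A : Set ℕ, (∀ n ∈ A, 1 ≤ n) ∧ s = ∑' n, A.indicator x n}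

theorem x_pos (n : ℕ) : 0 < x n := by unfold x; split_ifs <;> positivity

theorem x_le (n : ℕ) : x n ≤ (1 / 2) ^ n := by
  unfold x
  have h : ((1:ℝ) / 2) ^ n = 1 / 2 ^ n := by rw [div_pow, one_pow]
  rw [h]
  split_ifs
  · exact le_rfl
  · apply one_div_le_one_div_of_le (by positivity)
    linarith

theorem x_summable : Summable x :=
  Summable.of_nonneg_of_le (fun n => (x_pos n).le) x_le summable_geometric_two

/-- the shifted sequence -/
noncomputable def y (n : ℕ) : ℝ := x (n + 1)

theorem y_pos (n : ℕ) : 0 < y n := x_pos _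
theorem y_summable : Summable y := (summable_nat_add_iff 1).2 x_summable

theorem pow2 (k : ℕ) : (2:ℝ) ^ (2 * k) = 4 ^ k := by rw [pow_mul]; norm_num

theorem y_even (k : ℕ) : y (2 * k) = 2 * q (k + 1) := by
  unfold y x
  rw [if_pos (by exact ⟨k, rfl⟩)]
  have h1 := q_mul (k + 1)
  have h2 : (2:ℝ) ^ (2 * k + 1) * 2 = 4 ^ (k + 1) := by
    rw [← pow2, mul_add, pow_add, pow_add]; norm_num; ring
  rw [div_eq_iff (by positivity)]
  linarith [show 2 * q (k + 1) * 2 ^ (2 * k + 1) = q (k + 1) * (2 ^ (2 * k + 1) * 2) by ring,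
    show q (k + 1) * ((2:ℝ) ^ (2 * k + 1) * 2) = q (k + 1) * 4 ^ (k + 1) by rw [h2]]

theorem y_odd (k : ℕ) : y (2 * k + 1) = q (k + 1) - eta (k + 1) := by
  unfold y x
  have he : 2 * k + 1 + 1 = 2 * (k + 1) := by ring
  rw [he, if_neg (by
    rw [Nat.not_odd_iff_even]; exact even_two_mul _), pow2, ← eta_eq]

/-- the sum with a digit sequence -/
noncomputable def Fn (a : ℕ → Bool) : ℝ := ∑' n, if a n then y n else 0

/-- the tails -/
noncomputable def Tl (a : ℕ → Bool) (M : ℕ) : ℝ :=
  ∑' n, if a (n + 2 * M) then y (n + 2 * M) else 0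

theorem term_summable (a : ℕ → Bool) : Summable fun n => if a n then y n else 0 :=
  Summable.of_nonneg_of_le (fun n => by split_ifs; exact (y_pos n).le; exact le_rfl)
    (fun n => by split_ifs; exact le_rfl; exact (y_pos n).le) y_summable

theorem tail_summable (a : ℕ → Bool) (k : ℕ) :
    Summable fun n => if a (n + k) then y (n + k) else 0 :=
  (summable_nat_add_iff (f := fun n => if a n then y n else 0) k).2 (term_summable a)

theorem Tl_zero (a : ℕ → Bool) : Tl a 0 = Fn a := by simp [Tl, Fn]

theorem Tl_succ (a : ℕ → Bool) (M : ℕ) : Tl a M = (if a (2 * M) then y (2 * M) else 0)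
    + (if a (2 * M + 1) then y (2 * M + 1) else 0) + Tl a (M + 1) := by
  unfold Tl
  rw [(tail_summable a (2 * M)).tsum_eq_zero_add]
  have h1 : Summable fun n => if a (n + 1 + 2 * M) then y (n + 1 + 2 * M) else 0 := by
    have := tail_summable a (2 * M + 1)
    have e : (fun n => if a (n + 1 + 2 * M) then y (n + 1 + 2 * M) else 0)
        = fun n => if a (n + (2 * M + 1)) then y (n + (2 * M + 1)) else 0 := by
      funext n
      have : n + 1 + 2 * M = n + (2 * M + 1) := by ring
      rw [this]
    rw [e]; exact this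
  rw [h1.tsum_eq_zero_add]
  have e1 : ∀ n, n + 1 + 1 + 2 * M = n + 2 * (M + 1) := fun n => by ring
  simp only [zero_add, e1]
  have e2 : 1 + 2 * M = 2 * M + 1 := by ring
  rw [e2]
  ring

theorem Tl_nonneg (a : ℕ → Bool) (M : ℕ) : 0 ≤ Tl a M :=
  tsum_nonneg fun n => by split_ifs; exact (y_pos _).le; exact le_rfl

theorem sum_y (M K : ℕ) :
    ∑ i ∈ Finset.range (2 * (K + 1)), y (i + 2 * M) ≤ q M - q (M + K + 1) - eta (M + 1) := by
  induction K with
  | zero =>
    simp only [zero_add, mul_one, Finset.sum_range_succ, Finset.sum_range_zero]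
    have e1 : 1 + 2 * M = 2 * M + 1 := by ring
    rw [e1, y_even, y_odd]
    have : q M = 4 * q (M + 1) := by rw [q_succ]; ring
    simp only [add_zero]
    linarith
  | succ K ih =>
    have e1 : 2 * (K + 1 + 1) = 2 * (K + 1) + 1 + 1 := by ring
    rw [e1, Finset.sum_range_succ, Finset.sum_range_succ]
    have e2 : 2 * (K + 1) + 2 * M = 2 * (M + K + 1) := by ring
    have e3 : 2 * (K + 1) + 1 + 2 * M = 2 * (M + K + 1) + 1 := by ring
    rw [e2, e3, y_even, y_odd]
    have h1 : q (M + K + 1) = 4 * q (M + K + 1 + 1) := by rw [q_succ (M + K + 1)]; ring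
    have h2 := eta_pos (M + K + 1 + 1)
    have e4 : M + (K + 1) + 1 = M + K + 1 + 1 := by ring
    rw [e4]
    linarith

theorem Tl_le (a : ℕ → Bool) (M : ℕ) : Tl a M ≤ q M - eta (M + 1) := by
  apply Real.tsum_le_of_sum_range_le
  · intro n; split_ifs; exact (y_pos _).le; exact le_rfl
  · intro n
    have h1 : ∑ i ∈ Finset.range n, (if a (i + 2 * M) then y (i + 2 * M) else 0)
        ≤ ∑ i ∈ Finset.range n, y (i + 2 * M) :=
      Finset.sum_le_sum fun i _ => by split_ifs; exact le_rfl; exact (y_pos _).le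
    have h2 : ∑ i ∈ Finset.range n, y (i + 2 * M) ≤ ∑ i ∈ Finset.range (2 * (n + 1)), y (i + 2 * M) :=
      Finset.sum_le_sum_of_subset_of_nonneg (Finset.range_mono (by omega))
        fun i _ _ => (y_pos _).le
    have h3 := sum_y M n
    have h4 := q_pos (M + n + 1)
    linarith

theorem Lf_child (M m d : ℕ) (hd : d < 4) :
    Lf (M + 1) (4 * m + d) = Lf M m + d * q (M + 1) - ((d % 2 : ℕ) : ℝ) * eta (M + 1) := by
  have h1 : (4 * m + d) / 4 = m := by omega
  have h2 : (4 * m + d) % 2 = d % 2 := by omega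
  have hq4 : q M = 4 * q (M + 1) := by rw [q_succ]; ring
  unfold Lf
  simp only [e, h1, h2]
  push_cast
  rw [hq4]
  ring

theorem exists_hull (a : ℕ → Bool) (M : ℕ) : ∃ m, m < 4 ^ M ∧ Fn a = Lf M m + Tl a M := by
  induction M with
  | zero => exact ⟨0, by norm_num, by rw [Tl_zero]; simp [Lf, e]⟩
  | succ M ih =>
    obtain ⟨m, hm, h⟩ := ih
    rw [Tl_succ, y_even, y_odd] at h
    have hlt : ∀ d, d < 4 → 4 * m + d < 4 ^ (M + 1) := by
      intro d hd
      rw [pow_succ]; omega
    cases h1 : a (2 * M) <;> cases h2 : a (2 * M + 1)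
    · refine ⟨4 * m + 0, hlt 0 (by norm_num), ?_⟩
      rw [Lf_child M m 0 (by norm_num), h, h1, h2]; norm_num
    · refine ⟨4 * m + 1, hlt 1 (by norm_num), ?_⟩
      rw [Lf_child M m 1 (by norm_num), h, h1, h2]; norm_num; ring
    · refine ⟨4 * m + 2, hlt 2 (by norm_num), ?_⟩
      rw [Lf_child M m 2 (by norm_num), h, h1, h2]; norm_num; ring
    · refine ⟨4 * m + 3, hlt 3 (by norm_num), ?_⟩
      rw [Lf_child M m 3 (by norm_num), h, h1, h2]; norm_num; ring

theorem E_eq : E x = range Fn := by
  classical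
  ext s
  constructor
  · rintro ⟨A, hA, rfl⟩
    refine ⟨fun n => decide (n + 1 ∈ A), ?_⟩
    have hs : Summable (A.indicator x) := x_summable.indicator A
    rw [hs.tsum_eq_zero_add]
    have h0 : A.indicator x 0 = 0 := indicator_of_notMem (fun h => by simpa using hA 0 h) _
    rw [h0, zero_add]
    unfold Fn
    congr 1
    funext n
    by_cases h : n + 1 ∈ A
    · simp [h, y]
    · simp [h]
  · rintro ⟨a, rfl⟩
    refine ⟨{n | ∃ k, n = k + 1 ∧ a k = true}, ?_, ?_⟩
    · rintro n ⟨k, rfl, _⟩; omega
    · have hs : Summable (indicator {n | ∃ k, n = k + 1 ∧ a k = true} x) := x_summable.indicator _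
      rw [hs.tsum_eq_zero_add]
      have h0 : indicator {n | ∃ k, n = k + 1 ∧ a k = true} x 0 = 0 :=
        indicator_of_notMem (by rintro ⟨k, hk, _⟩; omega) _
      rw [h0, zero_add]
      unfold Fn
      congr 1
      funext n
      by_cases h : a n = true
      · rw [if_pos h, indicator_of_mem]
        · rfl
        · exact ⟨n, rfl, h⟩
      · rw [if_neg h, indicator_of_notMem]
        rintro ⟨k, hk, hak⟩
        have : k = n := by omega
        exact h (this ▸ hak)

theorem Fn_continuous : Continuous Fn := by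
  apply continuous_tsum (u := y)
  · intro n
    have h1 : Continuous fun b : Bool => if b then y n else 0 := continuous_of_discreteTopology
    exact h1.comp (continuous_apply n)
  · exact y_summable
  · intro n a
    rw [Real.norm_eq_abs]
    split_ifs
    · rw [abs_of_pos (y_pos n)]
    · rw [abs_zero]; exact (y_pos n).le

theorem good : Pool.Agent.H812R3.CantorChar.Good (E x) := by
  rw [E_eq]
  refine ⟨isCompact_range Fn_continuous, range_nonempty _, ?_, ?_⟩
  · rintro _ ⟨a, rfl⟩ ε hε
    have h1 : Tendsto y atTop (𝓝 0) := y_summable.tendsto_atTop_zero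
    obtain ⟨n, hn⟩ := (h1.eventually_lt_const hε).exists
    have hdiff : Fn (Function.update a n (!a n)) - Fn a = if a n then - y n else y n := by
      unfold Fn
      rw [← (term_summable _).tsum_sub (term_summable _)]
      rw [tsum_eq_single n]
      · rw [Function.update_self]
        cases a n <;> simp
      · intro m hm
        rw [Function.update_of_ne hm]
        ring
    have hyn := y_pos n
    refine ⟨Fn (Function.update a n (!a n)), ⟨_, rfl⟩, ?_, ?_⟩
    · intro h
      rw [h, sub_self] at hdiff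
      split_ifs at hdiff <;> linarith
    · rw [hdiff]
      split_ifs
      · rw [abs_neg, abs_of_pos hyn]; exact hn
      · rw [abs_of_pos hyn]; exact hn
  · intro u v huv
    by_contra hcon
    push Not at hcon
    refine no_interval (j := u + (v - u) / 3) (j' := u + 2 * (v - u) / 3) (by linarith) ?_
    intro M z hz
    obtain ⟨a, rfl⟩ := hcon z (by linarith [hz.1]) (by linarith [hz.2])
    obtain ⟨m, hm, h⟩ := exists_hull a M
    refine ⟨m, hm, ?_, ?_⟩
    · rw [h]; linarith [Tl_nonneg a M]
    · have h1 := Tl_le a M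
      rw [h]
      unfold Rf
      unfold Lf
      linarith

end Q41.AS
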