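import Pool.Agent.Q41.AS.Gap

/-! Fewer hulls meet a small interval in a gap. -/

set_option autoImplicit false

open Set

namespace Q41.AS

theorem count_gap {N t C m : ℕ} (ht : 3 ≤ t) (hsmall : 4 ^ (N + t + 1 + C) * q N ^ 2 ≤ 1 / 2)
    {b b' : ℝ} (hb : b ≤ mid (N + t) m - 2 / 3 * eta (N + t + 1))
    (hb' : mid (N + t) m - 1 / 3 * eta (N + t + 1) ≤ b') (ha1 : m / 4 ^ t ∈ hs N b b')
    (hal : ∀ a ∈ hs N b b', ∀ n1 : ℤ,
      |4 ^ (N + t + 1 + C) * (e N a - e N (m / 4 ^ t)) - (n1 : ℝ)|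
        ≤ 4 ^ (N + t + 1 + C) * q N ^ 2 / 4 → (4 : ℤ) ^ (C + 1) ∣ n1) :
    (hs (N + t + 1 + C) (mid (N + t) m - 2 / 3 * eta (N + t + 1))
      (mid (N + t) m - 1 / 3 * eta (N + t + 1))).card < (hs N b b').card := by
  have hη := eta_pos (N + t + 1)
  set x := mid (N + t) m - 2 / 3 * eta (N + t + 1) with hx
  set y := mid (N + t) m - 1 / 3 * eta (N + t + 1) with hy
  have hymid : y ≤ mid (N + t) m := by rw [hy]; linarith
  have hcard : ((hs N b b').erase (m / 4 ^ t)).card < (hs N b b').card :=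
    Finset.card_erase_lt_of_mem ha1
  have hYq : 0 ≤ (4:ℝ) ^ (N + t + 1 + C) * q N ^ 2 := by have := q_pos N; positivity
  refine lt_of_le_of_lt (Finset.card_le_card_of_injOn (fun mT => mT / 4 ^ (t + 1 + C)) ?_ ?_) hcard
  · intro mT hmT
    have hmT' : mT ∈ hs (N + t + 1 + C) x y := hmT
    have hM := (mem_hs.1 hmT').2
    have h1 : mT ∈ hs (N + (t + 1 + C)) x y := by
      have : N + (t + 1 + C) = N + t + 1 + C := by ring
      rw [this]; exact hmT'
    have h2 : mT / 4 ^ (t + 1 + C) ∈ hs N b b' := hs_mono hb hb' (hs_desc h1)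
    rw [Finset.mem_coe, Finset.mem_erase]
    refine ⟨fun heq => ?_, h2⟩
    have hpos := position ht (le_refl x) hymid hM
    have heq' : mT / 4 ^ (t + 1 + C) = m / 4 ^ t := heq
    rw [heq', sub_self, mul_zero, add_zero] at hpos
    have c1 : (mT : ℝ) < ((4 ^ (C + 1) * m + 2 * 4 ^ C : ℕ) : ℝ) + 1 := by
      push_cast; linarith [hpos.1]
    have c2 : ((4 ^ (C + 1) * m + 2 * 4 ^ C : ℕ) : ℝ) < (mT : ℝ) + 1 + 1 := by
      push_cast; linarith [hpos.2]
    have c1' : mT < 4 ^ (C + 1) * m + 2 * 4 ^ C + 1 := by exact_mod_cast c1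
    have c2' : 4 ^ (C + 1) * m + 2 * 4 ^ C < mT + 1 + 1 := by exact_mod_cast c2
    have c3 : mT = 4 ^ (C + 1) * m + 2 * 4 ^ C ∨ mT = 4 ^ (C + 1) * m + 2 * 4 ^ C - 1 := by omega
    rcases c3 with c3 | c3
    · have h3 := right_of (N + t) C m
      rw [← c3] at h3
      have := hM.1
      linarith
    · have h3 := left_of (N + t) C m
      rw [← c3] at h3
      have := hM.2
      linarith
  · -- injectivity
    have main : ∀ m1 ∈ hs (N + t + 1 + C) x y, ∀ m2 ∈ hs (N + t + 1 + C) x y,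
        m1 / 4 ^ (t + 1 + C) = m2 / 4 ^ (t + 1 + C) → ¬ m1 < m2 := by
      intro m1 hm1 m2 hm2 heq hlt
      have hM1 := (mem_hs.1 hm1).2
      have hM2 := (mem_hs.1 hm2).2
      have p1 := position ht (le_refl x) hymid hM1
      have p2 := position ht (le_refl x) hymid hM2
      rw [← heq] at p2
      have h2 : m1 / 4 ^ (t + 1 + C) ∈ hs N b b' := by
        have h1 : m1 ∈ hs (N + (t + 1 + C)) x y := by
          have : N + (t + 1 + C) = N + t + 1 + C := by ring
          rw [this]; exact hm1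
        exact hs_mono hb hb' (hs_desc h1)
      set g : ℝ := 4 ^ (N + t + 1 + C) * (e N (m1 / 4 ^ (t + 1 + C)) - e N (m / 4 ^ t)) with hg
      have c1 : (m2 : ℝ) < m1 + 2 := by linarith [p1.2, p2.1]
      have c1' : m2 < m1 + 2 := by exact_mod_cast c1
      have c2 : m2 = m1 + 1 := by omega
      have c2' : (m2 : ℝ) = m1 + 1 := by exact_mod_cast c2
      have hdvd := hal _ h2 ((m2 : ℤ) - (4 ^ (C + 1) * m + 2 * 4 ^ C)) (by
        rw [← hg, abs_le]
        push_cast
        constructor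
        · linarith [p2.1]
        · linarith [p1.2])
      obtain ⟨n2, hn2⟩ := hdvd
      have h4C : (0:ℤ) < 4 ^ C := by positivity
      have hma : 0 ≤ (m : ℤ) + n2 := by
        by_contra hneg
        push Not at hneg
        have h5 : (m : ℤ) + n2 ≤ -1 := by omega
        have h6 : (m2 : ℤ) = 4 ^ C * (4 * (m + n2) + 2) := by
          have : (m2 : ℤ) = 4 ^ (C + 1) * m + 2 * 4 ^ C + 4 ^ (C + 1) * n2 := by linarith
          rw [this, pow_succ]; ring
        have h7 : (0:ℤ) ≤ m2 := by positivity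
        nlinarith
      obtain ⟨ma, hma'⟩ := Int.eq_ofNat_of_zero_le hma
      have h6 : m2 = 4 ^ (C + 1) * ma + 2 * 4 ^ C := by
        have : (m2 : ℤ) = 4 ^ (C + 1) * (m + n2) + 2 * 4 ^ C := by linarith
        rw [hma'] at this
        exact_mod_cast this
      have h7 : m1 = 4 ^ (C + 1) * ma + 2 * 4 ^ C - 1 := by omega
      have r1 := right_of (N + t) C ma
      have r2 := left_of (N + t) C ma
      rw [← h6] at r1
      rw [← h7] at r2
      have r3 := hM2.1
      have r4 := hM1.2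
      have : y - x = 1 / 3 * eta (N + t + 1) := by rw [hx, hy]; ring
      linarith
    intro m1 hm1 m2 hm2 heq
    rcases lt_trichotomy m1 m2 with h | h | h
    · exact absurd h (main m1 hm1 m2 hm2 heq)
    · exact h
    · exact absurd h (main m2 hm2 m1 hm1 heq.symm)

end Q41.AS
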