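import Pool.Agent.Q41.AS.Thin

/-! Hulls near the middle gap of a hull. -/

set_option autoImplicit false

open Set

namespace Q41.AS

/-- the middle of a hull -/
noncomputable def mid (M m : ℕ) : ℝ := Lf M m + 2 * q (M + 1)

theorem div_right (C m : ℕ) : (4 ^ (C + 1) * m + 2 * 4 ^ C) / 4 ^ C = 4 * m + 2 := by
  have : 4 ^ (C + 1) * m + 2 * 4 ^ C = 4 ^ C * (4 * m + 2) := by rw [pow_succ]; ring
  rw [this, Nat.mul_div_cancel_left _ (by positivity)]

theorem div_left (C m : ℕ) : (4 ^ (C + 1) * m + 2 * 4 ^ C - 1) / 4 ^ C = 4 * m + 1 := by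
  have h1 : 0 < 4 ^ C := by positivity
  apply Nat.div_eq_of_lt_le
  · have : 4 ^ (C + 1) * m + 2 * 4 ^ C = (4 * m + 1) * 4 ^ C + 4 ^ C := by rw [pow_succ]; ring
    omega
  · have : 4 ^ (C + 1) * m + 2 * 4 ^ C = (4 * m + 1 + 1) * 4 ^ C := by rw [pow_succ]; ring
    omega

/-- the hull of the level `M + 1 + C` with the number `4^(C+1) m + 2 4^C` is right of the gap -/
theorem right_of (M C m : ℕ) : mid M m ≤ Lf (M + 1 + C) (4 ^ (C + 1) * m + 2 * 4 ^ C) := by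
  have h := (hull_desc (M + 1) C (4 ^ (C + 1) * m + 2 * 4 ^ C)).1
  rw [div_right, gap_right] at h
  exact h

theorem left_of (M C m : ℕ) :
    Rf (M + 1 + C) (4 ^ (C + 1) * m + 2 * 4 ^ C - 1) < mid M m - eta (M + 1) := by
  have h := (hull_desc (M + 1) C (4 ^ (C + 1) * m + 2 * 4 ^ C - 1)).2
  rw [div_left, gap_left] at h
  have := eta_pos (M + 2)
  unfold mid
  linarith

/-- the position of the hulls which meet the interval in the gap of `(M, m)` -/
theorem position {N t C m mT : ℕ} {x y : ℝ} (hct : 3 ≤ t)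
    (hx : mid (N + t) m - 2 / 3 * eta (N + t + 1) ≤ x) (hy : y ≤ mid (N + t) m)
    (hM : Mt (N + t + 1 + C) mT x y) :
    (mT : ℝ) ≤ 4 ^ (C + 1) * m + 2 * 4 ^ C
        + 4 ^ (N + t + 1 + C) * (e N (mT / 4 ^ (t + 1 + C)) - e N (m / 4 ^ t))
        + 4 ^ (N + t + 1 + C) * q N ^ 2 / 8 ∧
      4 ^ (C + 1) * m + 2 * 4 ^ C
        + 4 ^ (N + t + 1 + C) * (e N (mT / 4 ^ (t + 1 + C)) - e N (m / 4 ^ t))
        - 4 ^ (N + t + 1 + C) * q N ^ 2 / 8 < (mT : ℝ) + 1 := by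
  obtain ⟨hL, hR⟩ := hM
  have h1 := e_desc' N (t + 1 + C) mT
  have h2 := e_desc' N t m
  have eN : N + (t + 1 + C) = N + t + 1 + C := by ring
  rw [eN] at h1
  have hη := eta_pos (N + t + 1 + C + 1)
  have hηM := eta_le (N + t + 1)
  have hqT := q_mul (N + t + 1 + C)
  have hqM1 : q (N + t + 1) = 4 ^ C * q (N + t + 1 + C) := by
    rw [q_add (N + t + 1) C]
    have := q_mul C
    calc q (N + t + 1) = q (N + t + 1) * (q C * 4 ^ C) := by rw [this, mul_one]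
      _ = _ := by ring
  have hqM : q (N + t) = 4 ^ (C + 1) * q (N + t + 1 + C) := by
    have : q (N + t) = 4 * q (N + t + 1) := by rw [q_succ]; ring
    rw [this, hqM1, pow_succ]; ring
  have hsmall : q (N + t + 1) ^ 2 ≤ q N ^ 2 / 256 := by
    have h3 : q (N + t + 1) ≤ q N / 64 := by
      have h4 : q (N + t + 1) ≤ q (N + 3) := q_anti (by omega)
      have h5 : q (N + 3) = q N / 64 := by
        rw [q_add]; unfold q; norm_num; ring
      linarith
    have h6 := q_pos (N + t + 1)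
    have h7 := q_pos N
    nlinarith
  unfold mid Lf at hx hy
  unfold Lf at hL
  unfold Rf at hR
  set Q := q (N + t + 1 + C) with hQ
  set Y : ℝ := 4 ^ (N + t + 1 + C) with hY
  have hYp : 0 < Y := by positivity
  rw [hqM, hqM1] at hx hy
  have key1 : (mT : ℝ) * Q ≤ (4 ^ (C + 1) * m + 2 * 4 ^ C) * Q
      + (e N (mT / 4 ^ (t + 1 + C)) - e N (m / 4 ^ t)) + q N ^ 2 / 8 := by
    nlinarith [h1.2, h2.1, sq_nonneg (q N)]
  have key2 : (4 ^ (C + 1) * m + 2 * 4 ^ C) * Q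
      + (e N (mT / 4 ^ (t + 1 + C)) - e N (m / 4 ^ t)) - q N ^ 2 / 8 < ((mT : ℝ) + 1) * Q := by
    nlinarith [h1.1, h2.2, sq_nonneg (q N)]
  have hQY : Q * Y = 1 := hqT
  constructor
  · have := mul_le_mul_of_nonneg_right key1 hYp.le
    have e1 : (mT : ℝ) * Q * Y = mT := by rw [mul_assoc, hQY, mul_one]
    have e2 : ((4 ^ (C + 1) * m + 2 * 4 ^ C) * Q
      + (e N (mT / 4 ^ (t + 1 + C)) - e N (m / 4 ^ t)) + q N ^ 2 / 8) * Y
      = (4 ^ (C + 1) * m + 2 * 4 ^ C) * (Q * Y)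
      + Y * (e N (mT / 4 ^ (t + 1 + C)) - e N (m / 4 ^ t)) + Y * q N ^ 2 / 8 := by ring
    rw [e1, e2, hQY, mul_one] at this
    exact this
  · have := mul_lt_mul_of_pos_right key2 hYp
    have e1 : ((mT : ℝ) + 1) * Q * Y = mT + 1 := by rw [mul_assoc, hQY, mul_one]
    have e2 : ((4 ^ (C + 1) * m + 2 * 4 ^ C) * Q
      + (e N (mT / 4 ^ (t + 1 + C)) - e N (m / 4 ^ t)) - q N ^ 2 / 8) * Y
      = (4 ^ (C + 1) * m + 2 * 4 ^ C) * (Q * Y)
      + Y * (e N (mT / 4 ^ (t + 1 + C)) - e N (m / 4 ^ t)) - Y * q N ^ 2 / 8 := by ring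
    rw [e1, e2, hQY, mul_one] at this
    exact this

end Q41.AS
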