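import Mathlib

/-! The hulls of the perturbed dyadic sequence. -/

set_option autoImplicit false

namespace Q41.AS

/-- the powers of one quarter -/
noncomputable def q (k : ℕ) : ℝ := (1 / 4 : ℝ) ^ k

theorem q_pos (k : ℕ) : 0 < q k := by unfold q; positivity
theorem q_succ (k : ℕ) : q (k + 1) = q k / 4 := by unfold q; rw [pow_succ]; ring
theorem q_add (a b : ℕ) : q (a + b) = q a * q b := by unfold q; rw [pow_add]
theorem q_le_one (k : ℕ) : q k ≤ 1 := by unfold q; exact pow_le_one₀ (by norm_num) (by norm_num)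
theorem q_mul (k : ℕ) : q k * 4 ^ k = 1 := by
  unfold q; rw [← mul_pow]; norm_num
theorem q_anti {a b : ℕ} (h : a ≤ b) : q b ≤ q a := by
  unfold q; exact pow_le_pow_of_le_one (by norm_num) (by norm_num) h
theorem q_zero : q 0 = 1 := by simp [q]

/-- the perturbations -/
noncomputable def eta (k : ℕ) : ℝ := q k ^ 2 / (1 + q k)

theorem eta_pos (k : ℕ) : 0 < eta k := by
  have := q_pos k
  unfold eta; positivity

theorem eta_le (k : ℕ) : eta k ≤ q k ^ 2 := by
  have := q_pos k
  unfold eta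
  rw [div_le_iff₀ (by positivity)]
  nlinarith [sq_nonneg (q k)]

theorem eta_ge (k : ℕ) : q k ^ 2 / 2 ≤ eta k := by
  have h1 := q_pos k
  have h2 := q_le_one k
  unfold eta
  rw [div_le_div_iff₀ (by norm_num) (by positivity)]
  nlinarith [sq_nonneg (q k)]

theorem eta_le_q (k : ℕ) : eta k ≤ q k := by
  have h1 := q_pos k
  have h2 := q_le_one k
  have := eta_le k
  nlinarith

theorem eta_eq (k : ℕ) : 1 / ((4 : ℝ) ^ k + 1) = q k - eta k := by
  have h1 := q_pos k
  have h2 := q_mul k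
  have h3 : (0:ℝ) < 4 ^ k := by positivity
  unfold eta
  rw [eq_sub_iff_add_eq, div_add_div _ _ (by positivity) (by positivity), div_eq_iff (by positivity)]
  have : q k * (4 ^ k + 1) = 1 + q k := by rw [mul_add, h2, mul_one]
  nlinarith

/-- the total perturbation of the finite sum with the digits `m` -/
noncomputable def e : ℕ → ℕ → ℝ
  | 0, _ => 0
  | M + 1, m => e M (m / 4) + ((m % 2 : ℕ) : ℝ) * eta (M + 1)

/-- the left end of a hull -/
noncomputable def Lf (M m : ℕ) : ℝ := m * q M - e M m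

/-- the right end of a hull -/
noncomputable def Rf (M m : ℕ) : ℝ := (m + 1) * q M - e M m - eta (M + 1)

theorem Lf_le_Rf (M m : ℕ) : Lf M m ≤ Rf M m := by
  unfold Lf Rf
  have h1 := eta_le_q (M + 1)
  have h2 := q_anti (Nat.le_succ M)
  have h3 := q_pos M
  simp only [Nat.succ_eq_add_one] at h2
  linarith

theorem mod2_le (m : ℕ) : ((m % 2 : ℕ) : ℝ) ≤ 1 := by
  have : m % 2 ≤ 1 := by omega
  exact_mod_cast this

theorem e_step (M m : ℕ) : e M (m / 4) ≤ e (M + 1) m ∧
    e (M + 1) m ≤ e M (m / 4) + eta (M + 1) := by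
  have h0 := eta_pos (M + 1)
  have h1 := mod2_le m
  have h2 : (0:ℝ) ≤ ((m % 2 : ℕ) : ℝ) := by positivity
  simp only [e]
  constructor <;> nlinarith

/-- the perturbations which are added below the level `N` -/
theorem e_desc (N t m : ℕ) : e N (m / 4 ^ t) ≤ e (N + t) m ∧
    e (N + t) m ≤ e N (m / 4 ^ t) + (q N ^ 2 - q (N + t) ^ 2) / 15 := by
  induction t generalizing m with
  | zero => simp
  | succ t ih =>
    have h1 := e_step (N + t) m
    have h2 := ih (m / 4)
    have h3 : m / 4 / 4 ^ t = m / 4 ^ (t + 1) := by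
      rw [Nat.div_div_eq_div_mul, pow_succ, mul_comm]
    rw [h3] at h2
    have h4 := eta_le (N + t + 1)
    have h5 : q (N + t + 1) = q (N + t) / 4 := q_succ _
    have e1 : N + (t + 1) = N + t + 1 := rfl
    rw [e1]
    constructor
    · linarith
    · rw [h5] at h4 ⊢
      nlinarith [sq_nonneg (q (N + t))]

theorem e_desc' (N t m : ℕ) : e N (m / 4 ^ t) ≤ e (N + t) m ∧
    e (N + t) m ≤ e N (m / 4 ^ t) + q N ^ 2 / 15 := by
  have h := e_desc N t m
  exact ⟨h.1, by nlinarith [sq_nonneg (q (N + t))]⟩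

/-- a hull is contained in the hull of its parent -/
theorem hull_step (M m : ℕ) : Lf M (m / 4) ≤ Lf (M + 1) m ∧ Rf (M + 1) m ≤ Rf M (m / 4) := by
  have hq := q_succ M
  have hqp := q_pos M
  have h0 := eta_pos (M + 1)
  have h0' := eta_pos (M + 2)
  have h1 := eta_le_q (M + 1)
  have hdm := Nat.div_add_mod m 4
  have hm : (m : ℝ) = 4 * ((m / 4 : ℕ) : ℝ) + ((m % 4 : ℕ) : ℝ) := by exact_mod_cast hdm.symm
  have h4 : m % 4 < 4 := Nat.mod_lt _ (by norm_num)
  have h2 : m % 2 = m % 4 % 2 := by omega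
  unfold Lf Rf
  simp only [e]
  rw [h2]
  generalize m % 4 = d at *
  generalize ((m / 4 : ℕ) : ℝ) = a at *
  rw [hm]
  have hq4 : q M = 4 * q (M + 1) := by rw [hq]; ring
  rw [hq4]
  rw [hq] at h1
  have hd : d = 0 ∨ d = 1 ∨ d = 2 ∨ d = 3 := by omega
  rcases hd with rfl | rfl | rfl | rfl
  all_goals
    norm_num
    constructor
    all_goals nlinarith

theorem hull_desc (N t m : ℕ) : Lf N (m / 4 ^ t) ≤ Lf (N + t) m ∧
    Rf (N + t) m ≤ Rf N (m / 4 ^ t) := by
  induction t generalizing m with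
  | zero => simp
  | succ t ih =>
    have h1 := hull_step (N + t) m
    have h2 := ih (m / 4)
    have h3 : m / 4 / 4 ^ t = m / 4 ^ (t + 1) := by
      rw [Nat.div_div_eq_div_mul, pow_succ, mul_comm]
    rw [h3] at h2
    exact ⟨h2.1.trans h1.1, h1.2.trans h2.2⟩

/-- the end of the second child -/
theorem gap_left (M m : ℕ) :
    Rf (M + 1) (4 * m + 1) = Lf M m + 2 * q (M + 1) - eta (M + 1) - eta (M + 2) := by
  have h1 : (4 * m + 1) / 4 = m := by omega
  have h2 : (4 * m + 1) % 2 = 1 := by omega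
  have hq4 : q M = 4 * q (M + 1) := by rw [q_succ]; ring
  unfold Rf Lf
  simp only [e, h1, h2]
  push_cast
  rw [hq4]
  ring

/-- the start of the third child -/
theorem gap_right (M m : ℕ) : Lf (M + 1) (4 * m + 2) = Lf M m + 2 * q (M + 1) := by
  have h1 : (4 * m + 2) / 4 = m := by omega
  have h2 : (4 * m + 2) % 2 = 0 := by omega
  have hq4 : q M = 4 * q (M + 1) := by rw [q_succ]; ring
  unfold Lf
  simp only [e, h1, h2]
  push_cast
  rw [hq4]
  ring

end Q41.AS
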