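import Pool.Agent.Q41.AS.Cnt

/-! No interval is covered by the hulls of all levels. -/

set_option autoImplicit false

open Set

namespace Q41.AS

open Classical in
theorem hs_card_le (N : ℕ) (x y : ℝ) : (hs N x y).card ≤ 4 ^ N := by
  unfold hs
  refine (Finset.card_filter_le _ _).trans ?_
  simp

theorem choose_m {N t a : ℕ} {β : ℝ} (h1 : Lf N a ≤ β) (h2 : β + 4 * q (N + t) ≤ Rf N a)
    (hs : q N ^ 2 ≤ q (N + t)) :
    ∃ m, m / 4 ^ t = a ∧ β ≤ Lf (N + t) m ∧ Lf (N + t) m ≤ β + 2 * q (N + t) := by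
  have hq := q_pos (N + t)
  have hqN := q_pos N
  have hqq : q N = 4 ^ t * q (N + t) := by
    rw [q_add]
    have := q_mul t
    calc q N = q N * (q t * 4 ^ t) := by rw [this, mul_one]
      _ = _ := by ring
  unfold Lf at h1
  unfold Rf at h2
  have hη := eta_pos (N + 1)
  have h0 : 0 ≤ (β + e N a) / q (N + t) := by
    apply div_nonneg _ hq.le
    have : 0 ≤ (a : ℝ) * q N := by positivity
    linarith
  set k := ⌈(β + e N a) / q (N + t)⌉₊ with hk
  have hk1 : (β + e N a) ≤ k * q (N + t) := by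
    rw [← div_le_iff₀ hq]
    exact Nat.le_ceil _
  have hk2 : (k : ℝ) * q (N + t) < β + e N a + q (N + t) := by
    have h3 := Nat.ceil_lt_add_one h0
    rw [← hk] at h3
    have h4 := mul_lt_mul_of_pos_right h3 hq
    rw [add_mul, div_mul_cancel₀ _ hq.ne', one_mul] at h4
    exact h4
  have hanc : (k + 1) / 4 ^ t = a := by
    apply Nat.div_eq_of_lt_le
    · have h3 : ((a * 4 ^ t : ℕ) : ℝ) * q (N + t) ≤ ((k + 1 : ℕ) : ℝ) * q (N + t) := by
        push_cast
        rw [mul_assoc, ← hqq, add_mul, one_mul]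
        linarith
      have h4 := le_of_mul_le_mul_right h3 hq
      exact_mod_cast h4
    · have h3 : ((k + 1 : ℕ) : ℝ) * q (N + t) < (((a + 1) * 4 ^ t : ℕ) : ℝ) * q (N + t) := by
        push_cast
        rw [mul_assoc, ← hqq, add_mul, one_mul]
        linarith
      have h4 := lt_of_mul_lt_mul_right h3 hq.le
      exact_mod_cast h4
  refine ⟨k + 1, hanc, ?_, ?_⟩
  · have h3 := (e_desc' N t (k + 1)).2
    rw [hanc] at h3
    unfold Lf
    push_cast
    linarith
  · have h3 := (e_desc' N t (k + 1)).1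
    rw [hanc] at h3
    unfold Lf
    push_cast
    linarith

/-- a set of naturals with small differences has few elements -/
theorem card_close {s : Finset ℕ} {C : ℕ} (h : ∀ a ∈ s, ∀ b ∈ s, b < a + C) : s.card ≤ C := by
  rcases s.eq_empty_or_nonempty with rfl | hne
  · simp
  · have hsub : s ⊆ Finset.Ico (s.min' hne) (s.min' hne + C) := fun m hm =>
      Finset.mem_Ico.2 ⟨s.min'_le m hm, h _ (s.min'_mem hne) m hm⟩
    have := Finset.card_le_card hsub
    rw [Nat.card_Ico] at this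
    omega

theorem no_interval {j j' : ℝ} (hj : j < j')
    (hcov : ∀ M, ∀ z ∈ Icc j j', ∃ m, m < 4 ^ M ∧ Lf M m ≤ z ∧ z ≤ Rf M m) : False := by
  have hJ : 0 < j' - j := sub_pos.2 hj
  obtain ⟨K0, hK0⟩ := exists_nat_ge (max 1 (4 / (j' - j)))
  have hK1 : 1 ≤ K0 := by exact_mod_cast (le_max_left _ _).trans hK0
  have hK4 : 4 ≤ (K0 : ℝ) * (j' - j) := by
    rw [← div_le_iff₀ hJ]; exact (le_max_right _ _).trans hK0
  obtain ⟨c, hc⟩ : ∃ c, 8 * K0 ≤ 4 ^ c := ⟨8 * K0, (Nat.lt_pow_self (by norm_num)).le⟩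
  obtain ⟨C, hC⟩ : ∃ C, 96 * K0 ≤ 16 ^ C := ⟨96 * K0, (Nat.lt_pow_self (by norm_num)).le⟩
  have hK0' : (1:ℝ) ≤ K0 := by exact_mod_cast hK1
  have hqcp := q_pos c
  have hcq : (K0 : ℝ) * q c ≤ 1 / 8 := by
    have h1 : (8 * K0 : ℝ) ≤ 4 ^ c := by exact_mod_cast hc
    have h2 := q_mul c
    nlinarith [mul_le_mul_of_nonneg_right h1 hqcp.le]
  have hqc1 : q c ≤ 1 / 8 := by nlinarith
  have hCq : 96 * (K0 : ℝ) * q C ^ 2 ≤ 1 := by
    have h1 : (96 * K0 : ℝ) ≤ 16 ^ C := by exact_mod_cast hC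
    have h2 := q_mul C
    have h3 : q C ^ 2 * 16 ^ C = 1 := by
      have : (16:ℝ) ^ C = (4 ^ C) ^ 2 := by rw [← pow_mul, mul_comm, pow_mul]; norm_num
      rw [this, ← mul_pow, h2, one_pow]
    have h4 := mul_le_mul_of_nonneg_right h1 (sq_nonneg (q C))
    linarith
  set W := K0 * (C + 1) with hW
  set Ns := 2 * c + W + C + 20 with hNs
  -- every level has an interval met by few hulls
  have kap : ∀ N, ∃ z, j ≤ z ∧ z + q (N + c) ≤ j' ∧ (hs N z (z + q (N + c))).card ≤ K0 := by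
    intro N
    by_contra hcon
    push Not at hcon
    have hw := q_pos (N + c)
    have hqN := q_pos N
    have hqcN : q (N + c) = q N * q c := q_add _ _
    have hqN1 := q_le_one N
    have hwq : (K0 + 1 : ℝ) * q (N + c) ≤ 1 := by
      rw [hqcN]
      have : q N * q c ≤ q c := by nlinarith
      nlinarith
    by_cases hjw : j ≤ j' - q (N + c)
    · have h1 := covering (s := hs N j j') (A := fun m => Lf N m - q (N + c))
        (B := fun m => Rf N m) (k := (K0 : ℝ) + 1)
        (fun m _ => by have := Lf_le_Rf N m; linarith) hjw (by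
          intro z hz
          have h2 := hcon z hz.1 (by linarith [hz.2])
          have h3 : ((K0 : ℝ) + 1) ≤ ((hs N z (z + q (N + c))).card : ℝ) := by exact_mod_cast h2
          exact h3.trans (count_eq hz.1 (by linarith [hz.2])))
      have h2 := len_le N (hs N j j') (w := q (N + c))
      have h3 : ((hs N j j').card : ℝ) ≤ 4 ^ N := by
        exact_mod_cast hs_card_le N j j'
      have h4 : ((hs N j j').card : ℝ) * (q N + q (N + c)) ≤ 4 ^ N * (q N + q (N + c)) :=
        mul_le_mul_of_nonneg_right h3 (by positivity)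
      have h5 : (4:ℝ) ^ N * (q N + q (N + c)) = 1 + q c := by
        have := q_mul N
        rw [hqcN]
        calc (4:ℝ) ^ N * (q N + q N * q c) = (q N * 4 ^ N) * (1 + q c) := by ring
          _ = _ := by rw [this, one_mul]
      have h6 : ((K0 : ℝ) + 1) * (j' - q (N + c) - j) ≤ 1 + q c := by
        linarith [h1.trans h2]
      nlinarith
    · push Not at hjw
      nlinarith
  -- the minimal number
  have hP : ∃ k, ∃ N, Ns ≤ N ∧ ∃ z, j ≤ z ∧ z + q (N + c) ≤ j' ∧
      (hs N z (z + q (N + c))).card = k := by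
    obtain ⟨z, h1, h2, _⟩ := kap Ns
    exact ⟨_, Ns, le_rfl, z, h1, h2, rfl⟩
  classical
  obtain ⟨κ, ⟨N, hN, b, hb1, hb2, hcard⟩, hmin⟩ : ∃ κ, (∃ N, Ns ≤ N ∧ ∃ z, j ≤ z ∧
      z + q (N + c) ≤ j' ∧ (hs N z (z + q (N + c))).card = κ) ∧ ∀ N, Ns ≤ N → ∀ z, j ≤ z →
      z + q (N + c) ≤ j' → κ ≤ (hs N z (z + q (N + c))).card :=
    ⟨Nat.find hP, Nat.find_spec hP, fun N hN z h1 h2 => Nat.find_min' hP ⟨N, hN, z, h1, h2, rfl⟩⟩
  have hκK : κ ≤ K0 := by
    obtain ⟨z, h1, h2, h3⟩ := kap Ns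
    exact (hmin Ns le_rfl z h1 h2).trans h3
  set w := q (N + c) with hw
  have hwp : 0 < w := q_pos _
  have hqN := q_pos N
  have hwN : w = q N * q c := q_add _ _
  -- reduction
  have red : ∀ (T : ℕ) (u u' : ℝ), b ≤ u → u < u' → u' ≤ b + w → (hs T u u').card < κ →
      (K0 : ℝ) * q T ^ 2 ≤ u' - u → False := by
    intro T u u' hbu huu hub hlt hKT
    obtain ⟨t0, ht0⟩ := thin hK1 hc huu (m0 := κ - 1) (by omega) (by omega) hKT
    obtain ⟨z, hz1, hz2, hz3⟩ := ht0 (t0 + Ns) (by omega)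
    have := hmin (T + (t0 + Ns)) (by omega) z (by linarith) (by linarith)
    omega
  -- claim 1
  have hKqN : 5 * (K0 : ℝ) * q N ≤ q c := by
    have h1 : q N ≤ q (c + c) := q_anti (by omega)
    rw [q_add] at h1
    nlinarith
  have claim1 : ∀ a ∈ hs N b (b + w), Lf N a ≤ b + w / 4 ∧ b + 3 / 4 * w ≤ Rf N a := by
    intro a ha
    have hlen : (K0 : ℝ) * q N ^ 2 ≤ w / 5 := by
      rw [hwN]; nlinarith
    constructor
    · by_contra hlt
      push Not at hlt
      apply red N b (b + w / 5) le_rfl (by linarith) (by linarith) _ (by linarith)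
      rw [← hcard]
      refine lt_of_le_of_lt (Finset.card_le_card (t := (hs N b (b + w)).erase a) ?_)
        (Finset.card_erase_lt_of_mem ha)
      intro m hm
      rw [Finset.mem_erase]
      refine ⟨?_, hs_mono le_rfl (by linarith) hm⟩
      rintro rfl
      have := (mem_hs.1 hm).2.1
      linarith
    · by_contra hlt
      push Not at hlt
      apply red N (b + w - w / 5) (b + w) (by linarith) (by linarith) le_rfl _ (by linarith)
      rw [← hcard]
      refine lt_of_le_of_lt (Finset.card_le_card (t := (hs N b (b + w)).erase a) ?_)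
        (Finset.card_erase_lt_of_mem ha)
      intro m hm
      rw [Finset.mem_erase]
      refine ⟨?_, hs_mono (by linarith) le_rfl hm⟩
      rintro rfl
      have := (mem_hs.1 hm).2.2
      linarith
  obtain ⟨a1, ha1⟩ : ∃ a1, a1 ∈ hs N b (b + w) := by
    obtain ⟨m, h1, h2, h3⟩ := hcov N b ⟨hb1, by linarith⟩
    exact ⟨m, mem_hs.2 ⟨h1, by linarith, h3⟩⟩
  -- smallness in the window
  have hsm : ∀ t, t ≤ c + 3 + W → (4:ℝ) ^ (N + t + 1 + C) * q N ^ 2 ≤ 1 / 16 := by
    intro t ht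
    have h1 : N + t + 1 + C + 2 ≤ 2 * N := by omega
    have h2 : (4:ℝ) ^ (N + t + 1 + C + 2) ≤ 4 ^ (2 * N) := pow_le_pow_right₀ (by norm_num) h1
    have h3 : (4:ℝ) ^ (2 * N) * q N ^ 2 = 1 := by
      have := q_mul N
      calc (4:ℝ) ^ (2 * N) * q N ^ 2 = (q N * 4 ^ N) ^ 2 := by rw [mul_pow, two_mul, pow_add]; ring
        _ = 1 := by rw [this, one_pow]
    have h4 := mul_le_mul_of_nonneg_right h2 (sq_nonneg (q N))
    rw [h3, pow_add] at h4
    linarith
  -- claim 2
  have claim2 : ∀ t, c + 3 ≤ t → t ≤ c + 3 + W → ∃ a ∈ hs N b (b + w), ∃ n1 : ℤ,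
      ¬ ((4 : ℤ) ^ (C + 1) ∣ n1) ∧
      |4 ^ (N + t + 1 + C) * (e N a - e N a1) - (n1 : ℝ)| ≤ 4 ^ (N + t + 1 + C) * q N ^ 2 / 4 := by
    intro t ht1 ht2
    by_contra hcon
    push Not at hcon
    have hqt := q_pos (N + t)
    have hqw : q (N + t) ≤ w / 64 := by
      have h1 : q (N + t) ≤ q (N + c + 3) := q_anti (by omega)
      have h2 : q (N + c + 3) = q (N + c) * q 3 := q_add _ _
      have h3 : q 3 = 1 / 64 := by unfold q; norm_num
      rw [h2, h3] at h1
      linarith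
    have hsmt := hsm t ht2
    have hQq : q N ^ 2 ≤ q (N + t) := by
      have h1 := q_mul (N + t)
      have h2 : (4:ℝ) ^ (N + t + 1 + C) = 4 ^ (N + t) * 4 ^ (1 + C) := by
        rw [← pow_add]; congr 1; ring
      have h3 : (1:ℝ) ≤ 4 ^ (1 + C) := one_le_pow₀ (by norm_num)
      rw [h2] at hsmt
      have h4 : (0:ℝ) < 4 ^ (N + t) := by positivity
      have h5 : (4:ℝ) ^ (N + t) * q N ^ 2 ≤ 1 := by
        have : 0 ≤ (4:ℝ) ^ (N + t) * q N ^ 2 := by positivity
        nlinarith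
      have h6 : (4:ℝ) ^ (N + t) * q N ^ 2 ≤ 4 ^ (N + t) * q (N + t) := by linarith
      exact le_of_mul_le_mul_left h6 h4
    obtain ⟨m, hm1, hm2, hm3⟩ := choose_m (t := t) (claim1 a1 ha1).1
      (by linarith [(claim1 a1 ha1).2]) hQq
    have hη := eta_pos (N + t + 1)
    have hη1 := eta_le_q (N + t + 1)
    have hη2 := eta_ge (N + t + 1)
    have hq1 : q (N + t + 1) = q (N + t) / 4 := q_succ _
    have hmid : mid (N + t) m = Lf (N + t) m + q (N + t) / 2 := by
      unfold mid; rw [hq1]; ring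
    have hcnt := count_gap (N := N) (t := t) (C := C) (m := m) (by omega) (by linarith)
      (b := b) (b' := b + w) (by rw [hmid]; linarith) (by rw [hmid]; linarith)
      (by rw [hm1]; exact ha1) (by
        intro a ha n1 h
        rw [hm1] at h
        by_contra hnd
        have := hcon a ha n1 hnd
        linarith)
    rw [hcard] at hcnt
    refine red _ _ _ ?_ ?_ ?_ hcnt ?_
    · rw [hmid]; linarith
    · linarith
    · rw [hmid]; linarith
    · have h1 : q (N + t + 1 + C) = q (N + t + 1) * q C := q_add _ _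
      rw [h1]
      have h2 : mid (N + t) m - 1 / 3 * eta (N + t + 1) - (mid (N + t) m - 2 / 3 * eta (N + t + 1))
          = eta (N + t + 1) / 3 := by ring
      rw [h2]
      have h3 : (0:ℝ) ≤ q (N + t + 1) ^ 2 := sq_nonneg _
      have h4 := mul_le_mul_of_nonneg_right hCq h3
      nlinarith
  -- pigeonhole
  choose! f hf g hg1 hg2 using claim2
  set win := Finset.Icc (c + 3) (c + 3 + W) with hwin
  have hwc : win.card = W + 1 := by rw [hwin, Nat.card_Icc]; omega
  have h1 : win.card = ∑ a ∈ hs N b (b + w), (win.filter fun t => f t = a).card :=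
    Finset.card_eq_sum_card_fiberwise fun t ht => by
      have := Finset.mem_Icc.1 (Finset.mem_coe.1 ht)
      exact hf t this.1 this.2
  have h2 : ∀ a ∈ hs N b (b + w), (win.filter fun t => f t = a).card ≤ C + 1 := by
    intro a _
    apply card_close
    intro t ht t' ht'
    rw [Finset.mem_filter, hwin, Finset.mem_Icc] at ht ht'
    by_contra hge
    push Not at hge
    obtain ⟨s, rfl⟩ := Nat.exists_eq_add_of_le hge
    have k1 := hg2 t ht.1.1 ht.1.2
    have k2 := hg2 (t + (C + 1) + s) ht'.1.1 ht'.1.2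
    rw [ht.2] at k1
    rw [ht'.2] at k2
    have k3 := hsm (t + (C + 1) + s) ht'.1.2
    have e1 : (4:ℝ) ^ (N + (t + (C + 1) + s) + 1 + C) = 4 ^ (C + 1 + s) * 4 ^ (N + t + 1 + C) := by
      rw [← pow_add]; congr 1; ring
    rw [e1] at k2 k3
    have hp : (0:ℝ) < 4 ^ (C + 1 + s) := by positivity
    have k4 : |(4:ℝ) ^ (C + 1 + s) * (4 ^ (N + t + 1 + C) * (e N a - e N a1)) -
        4 ^ (C + 1 + s) * (g t : ℝ)| ≤ 4 ^ (C + 1 + s) * (4 ^ (N + t + 1 + C) * q N ^ 2 / 4) := by
      rw [← mul_sub, abs_mul, abs_of_pos hp]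
      exact mul_le_mul_of_nonneg_left k1 hp.le
    have k5 : |(g (t + (C + 1) + s) : ℝ) - 4 ^ (C + 1 + s) * (g t : ℝ)| < 1 := by
      rw [abs_le] at k2 k4
      rw [abs_lt]
      constructor <;> nlinarith [k2.1, k2.2, k4.1, k4.2]
    have k6 : g (t + (C + 1) + s) = 4 ^ (C + 1 + s) * g t := by
      have k7 : |((g (t + (C + 1) + s) - 4 ^ (C + 1 + s) * g t : ℤ) : ℝ)| < 1 := by
        push_cast; exact k5
      have k8 : |g (t + (C + 1) + s) - 4 ^ (C + 1 + s) * g t| < 1 := by exact_mod_cast k7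
      have := Int.abs_lt_one_iff.1 k8
      linarith
    apply hg1 (t + (C + 1) + s) ht'.1.1 ht'.1.2
    rw [k6]
    exact ⟨4 ^ s * g t, by ring⟩
  have h3 : win.card ≤ κ * (C + 1) := by
    rw [h1, ← hcard, ← smul_eq_mul]
    exact Finset.sum_le_card_nsmul _ _ _ h2
  have h4 : κ * (C + 1) ≤ K0 * (C + 1) := Nat.mul_le_mul_right _ hκK
  omega

end Q41.AS
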