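import Pool.Agent.Q41.AS.Hull

/-! The covering lemma and the thin lemma. -/

set_option autoImplicit false

open MeasureTheory Set

namespace Q41.AS

/-- intervals which cover every point at least `k` times -/
theorem covering {s : Finset ℕ} {A B : ℕ → ℝ} (hAB : ∀ m ∈ s, A m ≤ B m) {u v : ℝ} (huv : u ≤ v)
    {k : ℝ} (h : ∀ z ∈ Icc u v, k ≤ ∑ m ∈ s, (Icc (A m) (B m)).indicator (fun _ => (1:ℝ)) z) :
    k * (v - u) ≤ ∑ m ∈ s, (B m - A m) := by
  have hI : ∀ m ∈ s, Integrable ((Icc (A m) (B m)).indicator fun _ => (1:ℝ))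
      (volume.restrict (Icc u v)) := by
    intro m _
    exact (integrable_const (1:ℝ)).indicator measurableSet_Icc
  have h1 : ∫ z in Icc u v, k ≤
      ∫ z in Icc u v, ∑ m ∈ s, (Icc (A m) (B m)).indicator (fun _ => (1:ℝ)) z := by
    apply setIntegral_mono_on (by simp) (integrable_finsetSum s hI) measurableSet_Icc
    exact h
  rw [integral_finsetSum s hI] at h1
  have h2 : ∫ z in Icc u v, k = k * (v - u) := by
    rw [setIntegral_const, smul_eq_mul, Real.volume_real_Icc_of_le huv]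
    ring
  rw [h2] at h1
  refine h1.trans (Finset.sum_le_sum fun m hm => ?_)
  rw [setIntegral_indicator measurableSet_Icc, setIntegral_const, smul_eq_mul, mul_one]
  have h3 : volume.real (Icc u v ∩ Icc (A m) (B m)) ≤ volume.real (Icc (A m) (B m)) :=
    measureReal_mono inter_subset_right isCompact_Icc.measure_lt_top.ne
  rw [Real.volume_real_Icc_of_le (hAB m hm)] at h3
  exact h3

/-- the number of naturals in a real interval -/
theorem card_le {s : Finset ℕ} {α l : ℝ} (hl : 0 ≤ l) (h : ∀ m ∈ s, α ≤ m ∧ (m : ℝ) ≤ α + l) :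
    (s.card : ℝ) ≤ l + 1 := by
  rcases s.eq_empty_or_nonempty with rfl | hne
  · simp; linarith
  · have hsub : s ⊆ Finset.Icc (s.min' hne) (s.max' hne) := fun m hm =>
      Finset.mem_Icc.2 ⟨s.min'_le m hm, s.le_max' m hm⟩
    have h1 := Finset.card_le_card hsub
    rw [Nat.card_Icc] at h1
    have h2 := h _ (s.min'_mem hne)
    have h3 := h _ (s.max'_mem hne)
    have h4 : s.min' hne ≤ s.max' hne := s.min'_le _ (s.max'_mem hne)
    have h5 : s.card + s.min' hne ≤ s.max' hne + 1 := by omega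
    have h6 : (s.card : ℝ) + s.min' hne ≤ s.max' hne + 1 := by exact_mod_cast h5
    linarith [h2.1, h3.2]

/-- the hull `(M, m)` meets the interval `[x, y]` -/
def Mt (M m : ℕ) (x y : ℝ) : Prop := Lf M m ≤ y ∧ x ≤ Rf M m

open Classical in
/-- the hulls of the level `M` which meet `[x, y]` -/
noncomputable def hs (M : ℕ) (x y : ℝ) : Finset ℕ :=
  (Finset.range (4 ^ M)).filter fun m => Mt M m x y

open Classical in
theorem mem_hs {M m : ℕ} {x y : ℝ} : m ∈ hs M x y ↔ m < 4 ^ M ∧ Mt M m x y := by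
  unfold hs
  rw [Finset.mem_filter, Finset.mem_range]

theorem hs_mono {M : ℕ} {x y x' y' : ℝ} (h1 : x ≤ x') (h2 : y' ≤ y) : hs M x' y' ⊆ hs M x y := by
  intro m hm
  rw [mem_hs] at hm ⊢
  exact ⟨hm.1, hm.2.1.trans h2, h1.trans hm.2.2⟩

/-- the ancestors of the hulls which meet an interval meet it -/
theorem hs_desc {N t m : ℕ} {x y : ℝ} (h : m ∈ hs (N + t) x y) : m / 4 ^ t ∈ hs N x y := by
  rw [mem_hs] at h ⊢
  obtain ⟨h1, h2, h3⟩ := h
  have h4 := hull_desc N t m
  refine ⟨?_, h4.1.trans h2, h3.trans h4.2⟩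
  rw [Nat.div_lt_iff_lt_mul (by positivity), ← pow_add]
  exact h1

/-- the indicator sum of the widened hulls counts the hulls which meet a short interval -/
theorem count_eq {M : ℕ} {x y z w : ℝ} (hx : x ≤ z) (hy : z + w ≤ y) :
    ((hs M z (z + w)).card : ℝ) ≤ ∑ m ∈ hs M x y,
      (Icc (Lf M m - w) (Rf M m)).indicator (fun _ => (1:ℝ)) z := by
  have hsub : hs M z (z + w) ⊆ hs M x y := hs_mono hx hy
  have h1 : ∑ m ∈ hs M z (z + w), (Icc (Lf M m - w) (Rf M m)).indicator (fun _ => (1:ℝ)) z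
      = (hs M z (z + w)).card := by
    rw [Finset.sum_congr rfl (g := fun _ => (1:ℝ))]
    · simp
    · intro m hm
      rw [mem_hs] at hm
      rw [indicator_of_mem]
      exact ⟨by linarith [hm.2.1], hm.2.2⟩
  rw [← h1]
  exact Finset.sum_le_sum_of_subset_of_nonneg hsub fun m _ _ =>
    indicator_nonneg (fun _ _ => zero_le_one) _

/-- the sum of the lengths of the widened hulls -/
theorem len_le (M : ℕ) (s : Finset ℕ) {w : ℝ} :
    ∑ m ∈ s, (Rf M m - (Lf M m - w)) ≤ s.card * (q M + w) := by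
  rw [← nsmul_eq_mul]
  apply Finset.sum_le_card_nsmul
  intro m _
  unfold Rf Lf
  have := eta_pos (M + 1)
  linarith

/-- the number of hulls of a deep level which meet an interval -/
theorem hs_card {T t m0 : ℕ} {u u' : ℝ} (hu : u ≤ u') (hm0 : (hs T u u').card ≤ m0) :
    ((hs (T + t) u u').card : ℝ) * q (T + t)
      ≤ m0 * ((u' - u) + 2 * q (T + t) + q T ^ 2 / 15) := by
  have hq := q_pos (T + t)
  have hqT := q_pos T
  have h1 : (hs (T + t) u u').card = ∑ a ∈ hs T u u',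
      ((hs (T + t) u u').filter fun m => m / 4 ^ t = a).card :=
    Finset.card_eq_sum_card_fiberwise fun m hm => hs_desc hm
  have h2 : ∀ a ∈ hs T u u', (((hs (T + t) u u').filter fun m => m / 4 ^ t = a).card : ℝ)
      ≤ ((u' - u) + q (T + t) + q T ^ 2 / 15) / q (T + t) + 1 := by
    intro a _
    apply card_le (α := (u + e T a - q (T + t)) / q (T + t)) (by
      have := sub_nonneg.2 hu
      positivity)
    intro m hm
    rw [Finset.mem_filter, mem_hs] at hm
    obtain ⟨⟨_, hL, hR⟩, ha⟩ := hm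
    have h3 := e_desc' T t m
    rw [ha] at h3
    have h4 := eta_pos (T + t + 1)
    unfold Lf at hL
    unfold Rf at hR
    constructor
    · rw [div_le_iff₀ hq]
      linarith [h3.1]
    · rw [← add_div, le_div_iff₀ hq]
      linarith [h3.2]
  have h3 : ((hs (T + t) u u').card : ℝ)
      ≤ m0 * (((u' - u) + q (T + t) + q T ^ 2 / 15) / q (T + t) + 1) := by
    rw [h1]
    push_cast
    refine (Finset.sum_le_card_nsmul _ _ _ h2).trans ?_
    rw [nsmul_eq_mul]
    apply mul_le_mul_of_nonneg_right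
    · exact_mod_cast hm0
    · have := sub_nonneg.2 hu
      positivity
  have h4 := mul_le_mul_of_nonneg_right h3 hq.le
  refine h4.trans (le_of_eq ?_)
  field_simp
  ring

/-- the thin lemma -/
theorem thin {K0 c T m0 : ℕ} (hK : 1 ≤ K0) (hc : 8 * K0 ≤ 4 ^ c) {u u' : ℝ} (hu : u < u')
    (hm0 : (hs T u u').card ≤ m0) (hmK : m0 ≤ K0) (hT : (K0 : ℝ) * q T ^ 2 ≤ u' - u) :
    ∃ t0, ∀ t, t0 ≤ t → ∃ z, u ≤ z ∧ z + q (T + t + c) ≤ u' ∧
      (hs (T + t) z (z + q (T + t + c))).card ≤ m0 := by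
  have hδ : 0 < u' - u := sub_pos.2 hu
  have hK' : (1:ℝ) ≤ K0 := by exact_mod_cast hK
  -- choice of `t0`
  obtain ⟨t0, ht0⟩ : ∃ t0 : ℕ, (10 * (K0 : ℝ)) * (1 / 4) ^ t0 < (u' - u) / 4 := by
    have h1 : Filter.Tendsto (fun t : ℕ => (10 * (K0 : ℝ)) * (1 / 4) ^ t) Filter.atTop
        (nhds ((10 * (K0 : ℝ)) * 0)) :=
      (tendsto_pow_atTop_nhds_zero_of_lt_one (by norm_num) (by norm_num)).const_mul _
    rw [mul_zero] at h1
    exact (h1.eventually_lt_const (by positivity : (0:ℝ) < (u' - u) / 4)).exists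
  refine ⟨t0, fun t ht => ?_⟩
  have hq := q_pos (T + t)
  have hqT := q_pos T
  have hqc : q (T + t + c) = q (T + t) * q c := q_add _ _
  have hqcp := q_pos c
  have hcq : (K0 : ℝ) * q c ≤ 1 / 8 := by
    have h1 : (8 * K0 : ℝ) ≤ 4 ^ c := by exact_mod_cast hc
    have h2 := q_mul c
    nlinarith [mul_le_mul_of_nonneg_right h1 hqcp.le]
  have hqc1 : q c ≤ 1 / 8 := by nlinarith
  have hsmall : 10 * (K0 : ℝ) * q (T + t) < (u' - u) / 4 := by
    have h1 : q (T + t) ≤ q t0 := q_anti (by omega)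
    have h2 : (10 * (K0 : ℝ)) * q (T + t) ≤ 10 * K0 * q t0 :=
      mul_le_mul_of_nonneg_left h1 (by positivity)
    have h3 : q t0 = (1 / 4) ^ t0 := rfl
    rw [h3] at h2
    linarith
  by_contra hcon
  push Not at hcon
  have hw : q (T + t + c) ≤ q (T + t) / 8 := by rw [hqc]; nlinarith
  have hwp := q_pos (T + t + c)
  have huw : u ≤ u' - q (T + t + c) := by nlinarith
  have h1 := covering (s := hs (T + t) u u') (A := fun m => Lf (T + t) m - q (T + t + c))
    (B := fun m => Rf (T + t) m) (k := (m0 : ℝ) + 1)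
    (fun m _ => by have := Lf_le_Rf (T + t) m; linarith) huw (by
      intro z hz
      have h2 := hcon z hz.1 (by linarith [hz.2])
      have h3 : ((m0 : ℝ) + 1) ≤ ((hs (T + t) z (z + q (T + t + c))).card : ℝ) := by
        exact_mod_cast h2
      exact h3.trans (count_eq hz.1 (by linarith [hz.2])))
  have h2 := len_le (T + t) (hs (T + t) u u') (w := q (T + t + c))
  have h3 := hs_card (t := t) hu.le hm0
  have h4 : ((hs (T + t) u u').card : ℝ) * (q (T + t) + q (T + t + c))
      ≤ m0 * ((u' - u) + 2 * q (T + t) + q T ^ 2 / 15) * (1 + q c) := by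
    rw [hqc]
    have : ((hs (T + t) u u').card : ℝ) * (q (T + t) + q (T + t) * q c)
        = ((hs (T + t) u u').card : ℝ) * q (T + t) * (1 + q c) := by ring
    rw [this]
    exact mul_le_mul_of_nonneg_right h3 (by linarith)
  have h5 : ((m0 : ℝ) + 1) * (u' - q (T + t + c) - u)
      ≤ m0 * ((u' - u) + 2 * q (T + t) + q T ^ 2 / 15) * (1 + q c) := (h1.trans h2).trans h4
  -- numerical contradiction
  have hm0' : (m0 : ℝ) ≤ K0 := by exact_mod_cast hmK
  have hm0n : (0:ℝ) ≤ m0 := by positivity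
  set δ := u' - u with hδd
  have g1 : (m0 : ℝ) * q c ≤ 1 / 8 := (mul_le_mul_of_nonneg_right hm0' hqcp.le).trans hcq
  have g2 : (m0 : ℝ) * q T ^ 2 ≤ δ := (mul_le_mul_of_nonneg_right hm0' (by positivity)).trans hT
  have g3 : (m0 : ℝ) * q (T + t) ≤ K0 * q (T + t) := mul_le_mul_of_nonneg_right hm0' hq.le
  have g4 : q (T + t) ≤ K0 * q (T + t) := by nlinarith
  have e1 : u' - q (T + t + c) - u = δ - q (T + t + c) := by rw [hδd]; ring
  rw [e1] at h5
  have hKQ : 0 < K0 * q (T + t) := by positivity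
  have g5 : ((m0 : ℝ) + 1) * q (T + t + c) ≤ 2 * (K0 * q (T + t)) := by
    have a1 : ((m0 : ℝ) + 1) ≤ 2 * K0 := by linarith
    have a2 := mul_le_mul a1 hw hwp.le (by positivity)
    linarith
  have g6 : (m0 : ℝ) * q c * δ ≤ δ / 8 := by
    have := mul_le_mul_of_nonneg_right g1 hδ.le
    linarith
  have g7 : (m0 : ℝ) * q (T + t) * (1 + q c) ≤ 2 * (K0 * q (T + t)) := by
    have a1 : (1 + q c) ≤ 2 := by linarith
    have a2 := mul_le_mul g3 a1 (by linarith) hKQ.le
    linarith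
  have g8 : (m0 : ℝ) * q T ^ 2 * (1 + q c) ≤ 2 * δ := by
    have a1 : (1 + q c) ≤ 2 := by linarith
    have a2 := mul_le_mul g2 a1 (by linarith) hδ.le
    linarith
  have e2 : (m0 : ℝ) * (δ + 2 * q (T + t) + q T ^ 2 / 15) * (1 + q c)
      = m0 * δ + m0 * q c * δ + 2 * (m0 * q (T + t) * (1 + q c))
        + (m0 * q T ^ 2 * (1 + q c)) / 15 := by ring
  have e3 : ((m0 : ℝ) + 1) * (δ - q (T + t + c))
      = m0 * δ + δ - ((m0 : ℝ) + 1) * q (T + t + c) := by ring
  rw [e2, e3] at h5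
  linarith

end Q41.AS
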